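import Pool.Agent.Q249.CN.Main

set_option autoImplicit false

/-!
# MP_1e1427_nt: the numbers `2^(x+y) + 2^(z+w) + 1` of `n` are not covered by few primes

Let `k` be a natural number and `ε > 0`. For large odd `n` there are at least `n ^ (1 - ε)`
quadruples of natural numbers with `n = x² + y² + z² + w²` for which `2^(x+y) + 2^(z+w) + 1` is
divisible by none of the following primes: `k` prescribed primes of any size (set `P`), up to
`n ^ (θ - ε)` prescribed primes for which the order of `2` is at least `n ^ θ` (set `Q`,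
`0 ≤ θ ≤ 1/2`), the prime `2` and all prime factors of `2^K - 1`, where `K ≤ n ^ δ` is prescribed.

In particular the least number of primes such that each of the numbers `2^(x+y) + 2^(z+w) + 1`
with `x² + y² + z² + w² = n` is divisible by one of them tends to infinity with `n`, `n` odd.

The proof. A prime `q` for which the order of `2` is `m` divides only `n ^ η (√n + n / m)` of the
numbers: the sum `x + y` determines `z + w` modulo `m`, and the two sums belong to at most
`r₂(2n - (x+y)² - (z+w)²)` quadruples. If all prescribed primes have order at least `n ^ γ` this is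
small compared with the `n ^ (1 - η)` quadruples, `η` small in terms of `γ`, which are provided by
the starting result AllPrimesToLog; and a prime of order at most `n ^ γ` is put into `K`. The range
for the orders is divided in `k + 1` steps.
-/

namespace Pool.Agent.Results.MP_1e1427_nt.CoveringPrimes

theorem result (k : ℕ) (ε : ℝ) (hε : 0 < ε) : ∃ δ : ℝ, 0 < δ ∧ ∃ n₀ : ℕ, ∀ n K : ℕ,
    n₀ ≤ n → Odd n → 0 < K → (K : ℝ) ≤ (n : ℝ) ^ δ →
    ∀ (P Q : Finset ℕ) (θ : ℝ), P.card ≤ k → (∀ p ∈ P, p.Prime) → 0 ≤ θ → θ ≤ 1 / 2 →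
      (Q.card : ℝ) ≤ (n : ℝ) ^ (θ - ε) →
      (∀ q ∈ Q, q.Prime ∧ (n : ℝ) ^ θ ≤ orderOf (2 : ZMod q)) →
      ∃ S : Finset (ℕ × ℕ × ℕ × ℕ), (n : ℝ) ^ (1 - ε) ≤ (S.card : ℝ) ∧
        ∀ x y z w : ℕ, (x, y, z, w) ∈ S → n = x ^ 2 + y ^ 2 + z ^ 2 + w ^ 2 ∧
          Nat.Coprime (2 ^ (x + y) + 2 ^ (z + w) + 1) (2 * (2 ^ K - 1)) ∧
          (∀ p ∈ P, ¬ p ∣ 2 ^ (x + y) + 2 ^ (z + w) + 1) ∧
          (∀ q ∈ Q, ¬ q ∣ 2 ^ (x + y) + 2 ^ (z + w) + 1) :=
  Pool.Agent.Q249.CN.good k ε hε

end Pool.Agent.Results.MP_1e1427_nt.CoveringPrimes
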