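import Pool.Agent.Q249.CN.SmoothMain

set_option autoImplicit false

/-!
# MP_1e1427_nt: the part of `2^(x+y) + 2^(z+w) + 1` composed of primes up to `n ^ (1/2 - ε)`

Let `0 < ε < 1/2`. For a quadruple of natural numbers with `n = x² + y² + z² + w²` put
`N = 2^(x+y) + 2^(z+w) + 1`, so that `log N > √n / 4`.

1. For every `n ≥ 1` there are at most `C n ^ (1 - ε/4)` quadruples for which `N` has an odd divisor
   `d > exp (n ^ (1/2 - ε/2))` all of whose prime factors are at most `n ^ (1/2 - ε)`.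
2. For odd `n ≥ n₀` and every `K ≤ n ^ δ` there are at least `n ^ (1 - ε/8) / 2` quadruples for which
   `N` is prime to `2 (2^K - 1)`, each divisor of `N` all of whose prime factors are at most
   `n ^ (1/2 - ε)` is at most `exp (n ^ (1/2 - ε/2))`, and `N` has a prime factor larger than
   `n ^ (1/2 - ε)`.

So for almost all representations the part of `N` composed of the primes up to `n ^ (1/2 - ε)`, with
multiplicities, is `N ^ o(1)`.

The proof. Let `q` be an odd prime, `a ≤ √(2n)`. The number of the `b ≤ √(2n)` for which `q ^ j`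
divides `2^a + 2^b + 1` is at most `√(2n) / m_j + 1`, where the order `m_j` of `2` modulo `q ^ j`
is at least `j log q`. The sum over `j` shows that the mean value of `v_q log q`, `v_q` the
exponent of `q` in `2^a + 2^b + 1`, is `O (log n)` for each `a`. The sum over `a` and the primes
`q ≤ n ^ (1/2 - ε)`, and the fact that each pair `(a, b) = (x + y, z + w)` belongs to `n ^ o(1)`
quadruples, give (1); and (2) follows from (1) and a starting result.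
-/

namespace Pool.Agent.Results.MP_1e1427_nt.SmoothPart

theorem result (ε : ℝ) (hε : 0 < ε) (hε2 : ε < 1 / 2) :
    (∃ C : ℝ, 0 < C ∧ ∀ n : ℕ, 1 ≤ n → ∀ T : Finset (ℕ × ℕ × ℕ × ℕ),
      (∀ x y z w : ℕ, (x, y, z, w) ∈ T → n = x ^ 2 + y ^ 2 + z ^ 2 + w ^ 2 ∧
        ∃ d : ℕ, Odd d ∧ d ∣ 2 ^ (x + y) + 2 ^ (z + w) + 1 ∧
          (∀ p : ℕ, p.Prime → p ∣ d → (p : ℝ) ≤ (n : ℝ) ^ (1 / 2 - ε)) ∧
          (n : ℝ) ^ (1 / 2 - ε / 2) < Real.log d) →
      (T.card : ℝ) ≤ C * (n : ℝ) ^ (1 - ε / 4)) ∧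
    ∃ δ : ℝ, 0 < δ ∧ ∃ n₀ : ℕ, ∀ n K : ℕ, n₀ ≤ n → Odd n → 0 < K → (K : ℝ) ≤ (n : ℝ) ^ δ →
      ∃ S : Finset (ℕ × ℕ × ℕ × ℕ), (n : ℝ) ^ (1 - ε / 8) / 2 ≤ (S.card : ℝ) ∧
        ∀ x y z w : ℕ, (x, y, z, w) ∈ S → n = x ^ 2 + y ^ 2 + z ^ 2 + w ^ 2 ∧
          Nat.Coprime (2 ^ (x + y) + 2 ^ (z + w) + 1) (2 * (2 ^ K - 1)) ∧
          (∀ d : ℕ, d ∣ 2 ^ (x + y) + 2 ^ (z + w) + 1 →
            (∀ p : ℕ, p.Prime → p ∣ d → (p : ℝ) ≤ (n : ℝ) ^ (1 / 2 - ε)) →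
            Real.log d ≤ (n : ℝ) ^ (1 / 2 - ε / 2)) ∧
          ∃ p : ℕ, p.Prime ∧ p ∣ 2 ^ (x + y) + 2 ^ (z + w) + 1 ∧ (n : ℝ) ^ (1 / 2 - ε) < p :=
  Pool.Agent.Q249.CN.smooth_main ε hε hε2

end Pool.Agent.Results.MP_1e1427_nt.SmoothPart
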