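import Pool.Agent.Q48.FS.Two

set_option autoImplicit false

/-!
# Prime factors `q` of `2 ^ (x + y) + 2 ^ (z + w) + 1` for which `q - 1` has a very large prime factor

Q1 asks for a representation `n = x² + y² + z² + w²` of every odd `n > 1` for which `2 ^ (x + y) + 2 ^ (z + w) + 1` is a prime.
For all large odd `n` and for all but a proportion `ε` of the primitive representations of `n` in natural numbers the number
`2 ^ (x + y) + 2 ^ (z + w) + 1` has no prime factor `q = h r + 1` with a prime `r`, `r₀ ≤ r ≤ n ^ δ`, `h ^ 4 ≤ log r / log 2`.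
-/

namespace Pool.Agent.Results.MP_1e1427_nt.VeryLargePrimeFactors

open Finset

/-- the primitive representations of `n` as a sum of four squares of natural numbers -/
def Rep (n : ℕ) : Set (Fin 4 → ℕ) := {x | ∑ i, x i ^ 2 = n ∧ ∀ l : ℕ, l.Prime → ∃ i, ¬ l ∣ x i}

open Pool.Agent.W65.FS Pool.Agent.Q48.FS

lemma Rep_eq (n : ℕ) : Rep n = (((preps n).image (fun X : Fin 4 → ℤ => fun i => (X i).natAbs) : Finset (Fin 4 → ℕ)) : Set (Fin 4 → ℕ)) := by
  classical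
  ext x
  rw [mem_coe, mem_image]
  constructor
  · rintro ⟨h1, h2⟩
    refine ⟨fun i => (x i : ℤ), ?_, ?_⟩
    · rw [mem_preps]
      refine ⟨by exact_mod_cast h1, fun l hl => ?_⟩
      obtain ⟨i, hi⟩ := h2 l hl
      exact ⟨i, fun h => hi (Int.natCast_dvd_natCast.1 h)⟩
    · funext i
      simp
  · rintro ⟨X, hX, rfl⟩
    rw [mem_preps] at hX
    refine ⟨?_, fun l hl => ?_⟩
    · have h1 : ((∑ i, (X i).natAbs ^ 2 : ℕ) : ℤ) = n := by
        push_cast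
        simpa only [sq_abs] using hX.1
      exact_mod_cast h1
    · obtain ⟨i, hi⟩ := hX.2 l hl
      exact ⟨i, fun h => hi (Int.natCast_dvd.2 h)⟩

lemma Rep_card (n : ℕ) : (preps n).card ≤ 16 * (Rep n).ncard := by
  classical
  rw [Rep_eq, Set.ncard_coe_finset]
  exact card_abs_fiber _

/-- **Almost all representations avoid all these primes.** -/
theorem result (ε : ℝ) (hε : 0 < ε) : ∃ δ : ℝ, 0 < δ ∧ ∃ r₀ n₀ : ℕ, ∀ n : ℕ, Odd n → n₀ ≤ n →
    (n : ℝ) ^ (1 - ε) ≤ (Rep n).ncard ∧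
    (({x | x ∈ Rep n ∧ ∃ q r h : ℕ, q.Prime ∧ r.Prime ∧ q = h * r + 1 ∧ h ^ 4 ≤ Nat.log 2 r ∧ r₀ ≤ r ∧ (r : ℝ) ≤ (n : ℝ) ^ δ ∧
      q ∣ 2 ^ (x 0 + x 1) + 2 ^ (x 2 + x 3) + 1} : Set (Fin 4 → ℕ)).ncard : ℝ) ≤ ε * (Rep n).ncard := by
  classical
  obtain ⟨δ, hδ, r₀, n₁, h⟩ := almost_all (ε / 16) (by positivity)
  obtain ⟨n₂, h'⟩ := preps_card_lower ε hε
  refine ⟨δ, hδ, r₀ + 3, n₁ + n₂, fun n hn hn0 => ?_⟩
  have h1 := h n hn (by omega) (B2 n) (fun r hr hr2 => ⟨filter_subset _ _, card_B2 n r hr hr2⟩)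
  have h2 := h' n hn (by omega)
  have h3 : ((preps n).card : ℝ) ≤ 16 * (Rep n).ncard := by exact_mod_cast Rep_card n
  constructor
  · have h4 : 0 ≤ (n : ℝ) ^ (1 - ε) := by positivity
    linarith
  · have hfin : ({X | X ∈ preps n ∧ ∃ r : ℕ, r.Prime ∧ r₀ ≤ r ∧ (r : ℝ) ≤ (n : ℝ) ^ δ ∧ red r X ∈ B2 n r} : Set (Fin 4 → ℤ)).Finite :=
      (preps n).finite_toSet.subset fun X hX => hX.1
    have h4 : ({x | x ∈ Rep n ∧ ∃ q r h : ℕ, q.Prime ∧ r.Prime ∧ q = h * r + 1 ∧ h ^ 4 ≤ Nat.log 2 r ∧ r₀ + 3 ≤ r ∧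
        (r : ℝ) ≤ (n : ℝ) ^ δ ∧ q ∣ 2 ^ (x 0 + x 1) + 2 ^ (x 2 + x 3) + 1} : Set (Fin 4 → ℕ)).ncard ≤
        ({X | X ∈ preps n ∧ ∃ r : ℕ, r.Prime ∧ r₀ ≤ r ∧ (r : ℝ) ≤ (n : ℝ) ^ δ ∧ red r X ∈ B2 n r} : Set (Fin 4 → ℤ)).ncard := by
      refine Set.ncard_le_ncard_of_injOn (fun x : Fin 4 → ℕ => fun i => (x i : ℤ)) ?_ ?_ hfin
      · rintro x ⟨hx, q, r, h, hq, hr, rfl, hh, hr0, hrn, hd⟩
        have hX : (fun i => (x i : ℤ)) ∈ preps n := by
          rw [mem_preps]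
          refine ⟨by exact_mod_cast hx.1, fun l hl => ?_⟩
          obtain ⟨i, hi⟩ := hx.2 l hl
          exact ⟨i, fun h => hi (Int.natCast_dvd_natCast.1 h)⟩
        have hh1 : 1 ≤ h := by
          rcases Nat.eq_zero_or_pos h with h0 | h0
          · exfalso
            rw [h0, zero_mul, zero_add] at hq
            exact Nat.not_prime_one hq
          · exact h0
        have hhm : h ∈ mult r := mem_mult.2 ⟨⟨hh1, hh⟩, hq⟩
        have hr2 : r ≠ 2 := by omega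
        have hrq : r ≤ h * r := Nat.le_mul_of_pos_left r hh1
        refine ⟨hX, r, hr, by omega, hrn, ?_⟩
        unfold B2
        rw [mem_filter]
        refine ⟨?_, h, hhm, fun _ => 1, ?_, ?_⟩
        · have h5 := (mem_preps n _).1 hX
          exact red_mem n r hr _ h5.1 ((gc_iff _).2 h5.2)
        · unfold signs
          rw [Fintype.mem_piFinset]
          intro i
          simp
        · have h5 := mem_E2 (h * r + 1) r hq (by omega) (dvd_od r h hr hr2 hhm).1 _ _ hd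
          have e1 : (1 * red r (fun i => (x i : ℤ)) 0 + 1 * red r (fun i => (x i : ℤ)) 1) % (r : ℤ) = ((x 0 + x 1 : ℕ) : ℤ) % r := by
            unfold red
            rw [one_mul, one_mul, ← Int.add_emod]
            push_cast
            rfl
          have e2 : (1 * red r (fun i => (x i : ℤ)) 2 + 1 * red r (fun i => (x i : ℤ)) 3) % (r : ℤ) = ((x 2 + x 3 : ℕ) : ℤ) % r := by
            unfold red
            rw [one_mul, one_mul, ← Int.add_emod]
            push_cast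
            rfl
          rw [e1, e2]
          exact h5
      · intro x _ y _ hxy
        funext i
        have h6 := congrFun hxy i
        simp only [Nat.cast_inj] at h6
        exact h6
    have h5 : ((({x | x ∈ Rep n ∧ ∃ q r h : ℕ, q.Prime ∧ r.Prime ∧ q = h * r + 1 ∧ h ^ 4 ≤ Nat.log 2 r ∧ r₀ + 3 ≤ r ∧
        (r : ℝ) ≤ (n : ℝ) ^ δ ∧ q ∣ 2 ^ (x 0 + x 1) + 2 ^ (x 2 + x 3) + 1} : Set (Fin 4 → ℕ)).ncard : ℕ) : ℝ) ≤
        (({X | X ∈ preps n ∧ ∃ r : ℕ, r.Prime ∧ r₀ ≤ r ∧ (r : ℝ) ≤ (n : ℝ) ^ δ ∧ red r X ∈ B2 n r} : Set (Fin 4 → ℤ)).ncard : ℝ) := by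
      exact_mod_cast h4
    refine h5.trans (h1.trans ?_)
    calc ε / 16 * ((preps n).card : ℝ) ≤ ε / 16 * (16 * (Rep n).ncard) := by gcongr
      _ = _ := by ring

end Pool.Agent.Results.MP_1e1427_nt.VeryLargePrimeFactors
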